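import Pool.Agent.Helper60.CP.Stm3
import Pool.Agent.H206R2.Rot2.TI

/-!
# Volume bounds from lower bounds of the action: the general scheme
-/

set_option autoImplicit false

open Real Set MeasureTheory
open scoped ContDiff

namespace Pool.Agent.Helper93.CPQ

open Pool.Agent.H206R2.Rot2 (Veff)
open Pool.Agent.H206R2.Rot2.TI (gg gg_measurable gg_nonneg gg_bound gg_integrable gg_integral SC SC_one
  beta_id)

/-- the region `c₁, c₂ > 0`, `κ(c) < s` -/
def Rg (κ : ℝ × ℝ → ℝ) (s : ℝ) : Set (ℝ × ℝ) := {c | 0 < c.1 ∧ 0 < c.2 ∧ κ c < s}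

structure Good (κ : ℝ × ℝ → ℝ) : Prop where
  cont : Continuous κ
  le1 : ∀ c : ℝ × ℝ, 0 < c.1 → 0 < c.2 → c.1 ≤ κ c
  le2 : ∀ c : ℝ × ℝ, 0 < c.1 → 0 < c.2 → c.2 ≤ κ c

variable {κ : ℝ × ℝ → ℝ}

lemma Rg_open (hκ : Good κ) (R : ℝ) : IsOpen (Rg κ R) := by
  have h1 : IsOpen {c : ℝ × ℝ | 0 < c.1} := isOpen_lt continuous_const continuous_fst
  have h2 : IsOpen {c : ℝ × ℝ | 0 < c.2} := isOpen_lt continuous_const continuous_snd
  have h3 : IsOpen {c : ℝ × ℝ | κ c < R} := isOpen_lt hκ.cont continuous_const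
  exact h1.inter (h2.inter h3)

lemma Rg_measurable (hκ : Good κ) (R : ℝ) : MeasurableSet (Rg κ R) := (Rg_open hκ R).measurableSet

lemma Rg_subset (R : ℝ) : Rg κ R ⊆ Ioi (0 : ℝ) ×ˢ Ioi (0 : ℝ) := fun _ hc => ⟨hc.1, hc.2.1⟩

lemma Rg_subset_Icc (hκ : Good κ) (R : ℝ) : Rg κ R ⊆ Icc (0 : ℝ) R ×ˢ Icc (0 : ℝ) R := fun c hc =>
  ⟨⟨hc.1.le, (hκ.le1 c hc.1 hc.2.1).trans hc.2.2.le⟩,
    ⟨hc.2.1.le, (hκ.le2 c hc.1 hc.2.1).trans hc.2.2.le⟩⟩

lemma Rg_finite (hκ : Good κ) (R : ℝ) : volume (Rg κ R) ≠ ⊤ := by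
  have h1 : volume (Icc (0 : ℝ) R ×ˢ Icc (0 : ℝ) R) < ⊤ :=
    (isCompact_Icc.prod isCompact_Icc).measure_lt_top
  exact ((measure_mono (Rg_subset_Icc hκ R)).trans_lt h1).ne

lemma ind_integrable (hκ : Good κ) (s : ℝ) (a b : ℕ) :
    Integrable ((Rg κ s).indicator (fun c : ℝ × ℝ => c.1 ^ a * c.2 ^ b)) := by
  rw [integrable_indicator_iff (Rg_measurable hκ s)]
  have h1 : IntegrableOn (fun c : ℝ × ℝ => c.1 ^ a * c.2 ^ b) (Icc (0 : ℝ) s ×ˢ Icc (0 : ℝ) s) :=
    (Continuous.continuousOn (by fun_prop)).integrableOn_compact (isCompact_Icc.prod isCompact_Icc)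
  exact h1.mono_set (Rg_subset_Icc hκ s)

/-- Layer cake. -/
lemma layer (hκ : Good κ) (R : ℝ) (a b : ℕ) :
    ∫ c in Rg κ R, (R - κ c) * (c.1 ^ a * c.2 ^ b) =
      ∫ s in Ioo 0 R, ∫ c in Rg κ s, c.1 ^ a * c.2 ^ b := by
  set G : ℝ → ℝ × ℝ → ℝ := fun s c => (Rg κ s).indicator (fun c : ℝ × ℝ => c.1 ^ a * c.2 ^ b) c
    with hG
  have e1 : ∀ c ∈ Rg κ R, ∫ s in Ioo 0 R, G s c = (R - κ c) * (c.1 ^ a * c.2 ^ b) := by
    intro c hc
    have hk : 0 ≤ κ c := hc.1.le.trans (hκ.le1 c hc.1 hc.2.1)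
    have e2 : ∀ s : ℝ, G s c = (Ioi (κ c)).indicator (fun _ => c.1 ^ a * c.2 ^ b) s := by
      intro s
      simp only [hG]
      by_cases h : κ c < s
      · rw [indicator_of_mem (show c ∈ Rg κ s from ⟨hc.1, hc.2.1, h⟩),
          indicator_of_mem (mem_Ioi.2 h)]
      · rw [indicator_of_notMem (fun h' : c ∈ Rg κ s => h h'.2.2),
          indicator_of_notMem (fun h' => h (mem_Ioi.1 h'))]
    simp_rw [e2]
    rw [setIntegral_indicator measurableSet_Ioi]
    have e3 : Ioo 0 R ∩ Ioi (κ c) = Ioo (κ c) R := by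
      ext x
      simp only [mem_inter_iff, mem_Ioo, mem_Ioi]
      constructor
      · rintro ⟨⟨_, h2⟩, h3⟩
        exact ⟨h3, h2⟩
      · rintro ⟨h1, h2⟩
        exact ⟨⟨lt_of_le_of_lt hk h1, h2⟩, h1⟩
    rw [e3, setIntegral_const, Real.volume_real_Ioo_of_le hc.2.2.le, smul_eq_mul]
  have hmeas : Measurable (fun p : (ℝ × ℝ) × ℝ => G p.2 p.1) := by
    have e4 : (fun p : (ℝ × ℝ) × ℝ => G p.2 p.1) =
        ({p : (ℝ × ℝ) × ℝ | 0 < p.1.1 ∧ 0 < p.1.2 ∧ κ p.1 < p.2}).indicator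
          (fun p => p.1.1 ^ a * p.1.2 ^ b) := by
      funext p
      simp only [hG]
      by_cases h : p.1 ∈ Rg κ p.2
      · rw [indicator_of_mem h, indicator_of_mem (show p ∈ {p : (ℝ × ℝ) × ℝ | 0 < p.1.1 ∧ 0 < p.1.2 ∧
          κ p.1 < p.2} from h)]
      · rw [indicator_of_notMem h, indicator_of_notMem (show p ∉ {p : (ℝ × ℝ) × ℝ | 0 < p.1.1 ∧
          0 < p.1.2 ∧ κ p.1 < p.2} from h)]
    rw [e4]
    apply Measurable.indicator (by fun_prop)
    have o1 : IsOpen {p : (ℝ × ℝ) × ℝ | 0 < p.1.1} := isOpen_lt continuous_const (by fun_prop)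
    have o2 : IsOpen {p : (ℝ × ℝ) × ℝ | 0 < p.1.2} := isOpen_lt continuous_const (by fun_prop)
    have o3 : IsOpen {p : (ℝ × ℝ) × ℝ | κ p.1 < p.2} :=
      isOpen_lt (hκ.cont.comp continuous_fst) (by fun_prop)
    exact (o1.inter (o2.inter o3)).measurableSet
  set μ : Measure ℝ := volume.restrict (Ioo 0 R) with hμ
  set ν : Measure (ℝ × ℝ) := volume.restrict (Rg κ R) with hν
  have : IsFiniteMeasure ν :=
    ⟨by rw [hν, Measure.restrict_apply_univ]; exact lt_top_iff_ne_top.2 (Rg_finite hκ R)⟩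
  have : IsFiniteMeasure μ := ⟨by rw [hμ, Measure.restrict_apply_univ]; simp⟩
  have hint : Integrable (fun p : (ℝ × ℝ) × ℝ => G p.2 p.1) (ν.prod μ) := by
    have hb : ∀ᵐ p ∂(ν.prod μ), ‖G p.2 p.1‖ ≤ |R| ^ a * |R| ^ b := by
      have e : ν.prod μ = (volume.prod volume).restrict (Rg κ R ×ˢ Ioo 0 R) := by
        rw [hμ, hν, Measure.prod_restrict]
      rw [e]
      filter_upwards [ae_restrict_mem ((Rg_measurable hκ R).prod measurableSet_Ioo)] with p hp
      have h1 := (Rg_subset_Icc hκ R) hp.1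
      have hR : 0 ≤ R := h1.1.1.trans h1.1.2
      rw [abs_of_nonneg hR]
      simp only [hG]
      by_cases h : p.1 ∈ Rg κ p.2
      · rw [indicator_of_mem h, Real.norm_eq_abs,
          abs_of_nonneg (mul_nonneg (pow_nonneg h1.1.1 _) (pow_nonneg h1.2.1 _))]
        exact mul_le_mul (pow_le_pow_left₀ h1.1.1 h1.1.2 _) (pow_le_pow_left₀ h1.2.1 h1.2.2 _)
          (pow_nonneg h1.2.1 _) (pow_nonneg hR _)
      · rw [indicator_of_notMem h, norm_zero]
        positivity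
    exact Integrable.of_bound hmeas.aestronglyMeasurable _ hb
  have hswap := integral_integral_swap (f := fun c s => G s c) (μ := ν) (ν := μ) hint
  have e5 : ∫ c in Rg κ R, (R - κ c) * (c.1 ^ a * c.2 ^ b) = ∫ c, ∫ s, G s c ∂μ ∂ν := by
    rw [hν]
    apply setIntegral_congr_fun (Rg_measurable hκ R)
    intro c hc
    exact (e1 c hc).symm
  rw [e5, hswap, hμ]
  apply setIntegral_congr_fun measurableSet_Ioo
  intro s hs
  simp only [hG]
  rw [hν, setIntegral_indicator (Rg_measurable hκ s)]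
  have e7 : Rg κ R ∩ Rg κ s = Rg κ s := by
    apply inter_eq_right.2
    intro c hc
    exact ⟨hc.1, hc.2.1, hc.2.2.trans hs.2⟩
  rw [e7]

/-- If the integral over the region is homogeneous. -/
lemma layer_hom (hκ : Good κ) {R : ℝ} (hR : 0 < R) (a b : ℕ) {A : ℝ}
    (hA : ∀ s : ℝ, 0 < s → ∫ c in Rg κ s, c.1 ^ a * c.2 ^ b = A * s ^ (a + b + 2)) :
    ∫ c in Rg κ R, (R - κ c) * (c.1 ^ a * c.2 ^ b) = A * R ^ (a + b + 3) / ((a : ℝ) + b + 3) := by
  rw [layer hκ R a b, setIntegral_congr_fun measurableSet_Ioo (fun s hs => hA s hs.1),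
    ← integral_Ioc_eq_integral_Ioo, ← intervalIntegral.integral_of_le hR.le,
    intervalIntegral.integral_const_mul, integral_pow, zero_pow (by omega)]
  push_cast
  rw [show (a : ℝ) + b + 2 + 1 = a + b + 3 by ring]
  ring

/-! ### The upper side -/

lemma gg_le {F H R : ℝ} (hF : 0 < F) (hH : 0 < H) (a b : ℕ) :
    ∫ c in Rg κ R, gg F H a b c ≤
      F ^ (a + 1) * H ^ (b + 1) * ((∫ x in (0 : ℝ)..1, √(1 - x ^ 2) * x ^ b) * SC a (b + 3)) := by
  rw [← gg_integral hF hH]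
  apply setIntegral_mono_set (gg_integrable hF hH a b)
  · filter_upwards [ae_restrict_mem (measurableSet_Ioi.prod measurableSet_Ioi)] with c hc
    exact gg_nonneg a b hc.1 hc.2
  · exact (Rg_subset R).eventuallyLE

lemma gg_lt (hκ : Good κ) {F H R : ℝ} (hF : 0 < F) (hH : 0 < H) (hR : 0 < R) (hRH : R < H)
    (a b : ℕ) :
    ∫ c in Rg κ R, gg F H a b c <
      F ^ (a + 1) * H ^ (b + 1) * ((∫ x in (0 : ℝ)..1, √(1 - x ^ 2) * x ^ b) * SC a (b + 3)) := by
  rw [← gg_integral hF hH]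
  set Q : Set (ℝ × ℝ) := Ioi (0 : ℝ) ×ˢ Ioi (0 : ℝ) with hQ
  have hi := gg_integrable hF hH a b
  have hQm : MeasurableSet Q := measurableSet_Ioi.prod measurableSet_Ioi
  have h1 : ∫ c in Q, gg F H a b c =
      (∫ c in Q \ Rg κ R, gg F H a b c) + ∫ c in Rg κ R, gg F H a b c := by
    rw [← setIntegral_union disjoint_sdiff_left (Rg_measurable hκ R) (hi.mono_set sdiff_subset)
      (hi.mono_set (Rg_subset R)), sdiff_union_of_subset (Rg_subset R)]
  rw [h1]
  have h2 : 0 < ∫ c in Q \ Rg κ R, gg F H a b c := by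
    rw [setIntegral_pos_iff_support_of_nonneg_ae]
    · set U : Set (ℝ × ℝ) := {c | 0 < c.1 ∧ R < c.2 ∧ (c.1 / F) ^ 2 + (c.2 / H) ^ 2 < 1} with hU
      have hUo : IsOpen U := by
        have o1 : IsOpen {c : ℝ × ℝ | 0 < c.1} := isOpen_lt continuous_const continuous_fst
        have o2 : IsOpen {c : ℝ × ℝ | R < c.2} := isOpen_lt continuous_const continuous_snd
        have o3 : IsOpen {c : ℝ × ℝ | (c.1 / F) ^ 2 + (c.2 / H) ^ 2 < 1} :=
          isOpen_lt (by fun_prop) continuous_const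
        exact o1.inter (o2.inter o3)
      have hUn : U.Nonempty := by
        set x := (R + H) / 2 with hx
        have hx1 : R < x := by rw [hx]; linarith
        have hx2 : x < H := by rw [hx]; linarith
        have hx0 : 0 < x := hR.trans hx1
        have hxF : (x / H) ^ 2 < 1 := by
          have h3 : x / H < 1 := by rwa [div_lt_one hH]
          have h4 : 0 < x / H := by positivity
          nlinarith
        set δ := 1 - (x / H) ^ 2 with hδ
        have hδ0 : 0 < δ := by rw [hδ]; linarith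
        have hδ1 : δ ≤ 1 := by rw [hδ]; nlinarith [sq_nonneg (x / H)]
        refine ⟨(F * (δ / 2), x), by positivity, hx1, ?_⟩
        simp only
        have h5 : F * (δ / 2) / F = δ / 2 := by field_simp
        rw [h5]
        nlinarith
      refine (hUo.measure_pos volume hUn).trans_le (measure_mono ?_)
      intro c hc
      have hc2 : 0 < c.2 := hR.trans hc.2.1
      refine ⟨?_, ⟨⟨hc.1, hc2⟩, fun h => ?_⟩⟩
      · rw [Function.mem_support]
        unfold gg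
        have h6 : 0 < √(1 - ((c.1 / F) ^ 2 + (c.2 / H) ^ 2)) :=
          Real.sqrt_pos.2 (by linarith [hc.2.2])
        have h7 : 0 < c.1 ^ a * c.2 ^ b := mul_pos (pow_pos hc.1 a) (pow_pos hc2 b)
        positivity
      · have := h.2.2
        linarith [hc.2.1, hκ.le2 c hc.1 hc2]
    · filter_upwards [ae_restrict_mem (hQm.diff (Rg_measurable hκ R))] with c hc
      exact gg_nonneg a b hc.1.1 hc.1.2
    · exact hi.mono_set sdiff_subset
  linarith

/-- **The volume bound.** -/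
theorem vol_gen (hκ : Good κ) {L R lam : ℝ} {f h : ℝ → ℝ} (a b : ℕ) (hL : 0 < L) (hR : 0 < R)
    (hfc : Continuous f) (hhc : Continuous h) (hfpos : ∀ r ∈ Ioo 0 L, 0 < f r)
    (hhpos : ∀ r ∈ Ioo 0 L, 0 < h r) (hbig : ∃ r ∈ Ioo 0 L, R < h r)
    (hA : ∀ c ∈ Rg κ R, lam * (R - κ c) ≤ 2 * ∫ r in Ioo 0 L, √(1 - Veff f h c.1 c.2 r)) :
    lam * ∫ c in Rg κ R, (R - κ c) * (c.1 ^ a * c.2 ^ b) <
      2 * (((∫ x in (0 : ℝ)..1, √(1 - x ^ 2) * x ^ b) * SC a (b + 3)) *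
        ∫ r in (0 : ℝ)..L, f r ^ (a + 1) * h r ^ (b + 1)) := by
  have hfm : Measurable f := hfc.measurable
  have hhm : Measurable h := hhc.measurable
  set J1 := ∫ x in (0 : ℝ)..1, √(1 - x ^ 2) * x ^ b with hJ1
  set K := J1 * SC a (b + 3) with hK
  set μ : Measure ℝ := volume.restrict (Ioo 0 L) with hμ
  set ν : Measure (ℝ × ℝ) := volume.restrict (Rg κ R) with hν
  have : IsFiniteMeasure ν :=
    ⟨by rw [hν, Measure.restrict_apply_univ]; exact lt_top_iff_ne_top.2 (Rg_finite hκ R)⟩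
  have : IsFiniteMeasure μ := ⟨by rw [hμ, Measure.restrict_apply_univ]; simp⟩
  have hmeas : Measurable (fun p : ℝ × (ℝ × ℝ) => gg (f p.1) (h p.1) a b p.2) := by
    unfold gg
    fun_prop
  have hint : Integrable (fun p : ℝ × (ℝ × ℝ) => gg (f p.1) (h p.1) a b p.2) (μ.prod ν) := by
    have hb : ∀ᵐ p ∂(μ.prod ν), ‖gg (f p.1) (h p.1) a b p.2‖ ≤ R ^ a * R ^ b := by
      have e : μ.prod ν = (volume.prod volume).restrict (Ioo 0 L ×ˢ Rg κ R) := by
        rw [hμ, hν, Measure.prod_restrict]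
      rw [e]
      filter_upwards [ae_restrict_mem (measurableSet_Ioo.prod (Rg_measurable hκ R))] with p hp
      have h1 := (Rg_subset_Icc hκ R) hp.2
      exact gg_bound a b hp.2.1 hp.2.2.1 h1.1.2 h1.2.2
    exact Integrable.of_bound hmeas.aestronglyMeasurable _ hb
  have hswap := integral_integral_swap (f := fun r c => gg (f r) (h r) a b c) (μ := μ) (ν := ν) hint
  have hact : ∀ c : ℝ × ℝ, (2 * ∫ r in Ioo 0 L, √(1 - Veff f h c.1 c.2 r)) * (c.1 ^ a * c.2 ^ b) =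
      2 * ∫ r, gg (f r) (h r) a b c ∂μ := by
    intro c
    rw [mul_assoc, ← integral_mul_const]
    rfl
  have h1 : lam * (∫ c in Rg κ R, (R - κ c) * (c.1 ^ a * c.2 ^ b)) ≤
      2 * ∫ c, ∫ r, gg (f r) (h r) a b c ∂μ ∂ν := by
    rw [← integral_const_mul, ← integral_const_mul]
    apply setIntegral_mono_on _ _ (Rg_measurable hκ R)
    · intro c hc
      rw [← hact, ← mul_assoc]
      apply mul_le_mul_of_nonneg_right (hA c hc)
      have := hc.1
      have := hc.2.1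
      positivity
    · have hKc := hκ.cont
      have h2 : IntegrableOn (fun c : ℝ × ℝ => lam * ((R - κ c) * (c.1 ^ a * c.2 ^ b)))
          (Icc (0 : ℝ) R ×ˢ Icc (0 : ℝ) R) :=
        (Continuous.continuousOn (by fun_prop)).integrableOn_compact
          (isCompact_Icc.prod isCompact_Icc)
      exact h2.mono_set (Rg_subset_Icc hκ R)
    · exact (hint.integral_prod_right).const_mul 2
  rw [← hswap] at h1
  have hIm : Integrable (fun r => ∫ c, gg (f r) (h r) a b c ∂ν) μ := hint.integral_prod_left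
  have hfi : Integrable (fun r => f r ^ (a + 1) * h r ^ (b + 1) * K) μ := by
    have h3 : IntegrableOn (fun r => f r ^ (a + 1) * h r ^ (b + 1) * K) (Icc 0 L) :=
      (Continuous.continuousOn (by fun_prop)).integrableOn_Icc
    exact h3.mono_set Ioo_subset_Icc_self
  have h3 : ∫ r, ∫ c, gg (f r) (h r) a b c ∂ν ∂μ < ∫ r, f r ^ (a + 1) * h r ^ (b + 1) * K ∂μ := by
    rw [← sub_pos, ← integral_sub hfi hIm]
    rw [integral_pos_iff_support_of_nonneg_ae]
    · obtain ⟨r₀, ⟨hr0, hrL⟩, hrR⟩ := hbig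
      have hopen : IsOpen (Ioo 0 L ∩ {r | R < h r}) :=
        isOpen_Ioo.inter (isOpen_lt continuous_const hhc)
      have hpos : 0 < volume (Ioo 0 L ∩ {r | R < h r}) :=
        hopen.measure_pos volume ⟨r₀, ⟨hr0, hrL⟩, hrR⟩
      have hμpos : 0 < μ (Ioo 0 L ∩ {r | R < h r}) := by
        rw [hμ, Measure.restrict_apply hopen.measurableSet]
        have : Ioo 0 L ∩ {r | R < h r} ∩ Ioo 0 L = Ioo 0 L ∩ {r | R < h r} := by
          ext x; simp; tauto
        rwa [this]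
      refine hμpos.trans_le (measure_mono ?_)
      intro r hr
      rw [Function.mem_support]
      have h5 := gg_lt hκ (hfpos r hr.1) (hR.trans hr.2) hR hr.2 a b
      exact (sub_pos.mpr h5).ne'
    · have hae : ∀ᵐ r ∂μ, r ∈ Ioo 0 L := ae_restrict_mem measurableSet_Ioo
      filter_upwards [hae] with r hr
      have h5 := gg_le (κ := κ) (R := R) (hfpos r hr) (hhpos r hr) a b
      simp only [Pi.zero_apply]
      exact sub_nonneg.2 h5
    · exact hfi.sub hIm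
  have h4 : ∫ r, f r ^ (a + 1) * h r ^ (b + 1) * K ∂μ =
      K * ∫ r in (0 : ℝ)..L, f r ^ (a + 1) * h r ^ (b + 1) := by
    rw [integral_mul_const, intervalIntegral.integral_of_le hL.le, hμ,
      integral_Ioc_eq_integral_Ioo, mul_comm]
  rw [h4] at h3
  linarith

/-- The upper constant for `a = 2`. -/
theorem const_two (b : ℕ) : 2 * ((∫ x in (0 : ℝ)..1, √(1 - x ^ 2) * x ^ b) * SC 2 (b + 3)) =
    π / (((b : ℝ) + 1) * ((b : ℝ) + 3) * ((b : ℝ) + 5)) := by
  have hid := beta_id 2 b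
  have hB : (∫ x in (0 : ℝ)..1, √(1 - x ^ 2) * x ^ b) =
      (1 / ((b : ℝ) + 2)) * ∫ x in (0 : ℝ)..(π / 2), Real.sin x ^ b :=
    Pool.Agent.H206R2.Rot.TE.B_eq b
  rw [← hB] at hid
  set K := (∫ x in (0 : ℝ)..1, √(1 - x ^ 2) * x ^ b) * SC 2 (b + 3) with hK
  have h3 : SC 3 (b + 1) = 2 / (((b : ℝ) + 2) * ((b : ℝ) + 4)) := by
    have h4 := Pool.Agent.H206R2.Rot2.TI.SC_left 1 (b + 1)
    rw [SC_one] at h4
    push_cast at h4
    have h5 : (1 : ℝ) + (b + 1) + 2 = b + 4 := by ring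
    have h6 : (b : ℝ) + 1 + 1 = b + 2 := by ring
    rw [h5, h6] at h4
    have h7 : (b : ℝ) + 4 ≠ 0 := by positivity
    have h8 : (b : ℝ) + 2 ≠ 0 := by positivity
    have h9 : ((b : ℝ) + 4) * SC 3 (b + 1) = 2 / (b + 2) := by
      rw [h4]
      ring
    rw [← div_div, ← h9]
    field_simp
  rw [show (2 + 1 : ℕ) = 3 from rfl, h3] at hid
  have h5 : ((2 + b + 3).factorial : ℝ) =
      ((b : ℝ) + 5) * ((b : ℝ) + 4) * ((b : ℝ) + 3) * ((b : ℝ) + 2) * ((b : ℝ) + 1) * b.factorial := by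
    rw [show 2 + b + 3 = b + 1 + 1 + 1 + 1 + 1 by ring, Nat.factorial_succ, Nat.factorial_succ,
      Nat.factorial_succ, Nat.factorial_succ, Nat.factorial_succ]
    push_cast
    ring
  rw [h5] at hid
  have hf : (b.factorial : ℝ) ≠ 0 := by positivity
  have h6 : (b : ℝ) + 1 ≠ 0 := by positivity
  have h7 : (b : ℝ) + 2 ≠ 0 := by positivity
  have h8 : (b : ℝ) + 3 ≠ 0 := by positivity
  have h9 : (b : ℝ) + 4 ≠ 0 := by positivity
  have h10 : (b : ℝ) + 5 ≠ 0 := by positivity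
  have h11 : 2 * K = (2 * K * (2 / (((b : ℝ) + 2) * ((b : ℝ) + 4)))) *
      ((((b : ℝ) + 2) * ((b : ℝ) + 4)) / 2) := by
    field_simp
  rw [h11, hid]
  have h12 : ((2 : ℕ).factorial : ℝ) = 2 := by norm_num [Nat.factorial]
  rw [h12]
  field_simp

end Pool.Agent.Helper93.CPQ
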