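import Pool.Agent.Helper93.CPQ.Gen
import Pool.Agent.Helper2.CPV.V

/-!
# The volume bound for `ℍP^n` (part 3V)
-/

set_option autoImplicit false

open Real Set MeasureTheory
open scoped ContDiff

namespace Pool.Agent.Helper93.CPQ

open Pool.Agent.Helper60.CP
open Pool.Agent.Helper60.CP.V (KK_cont KK_nonneg le_KK mem_Reg inner_reg Reg_measurable)

/-- `κ(c) = c₁ + K` -/
noncomputable def κ3 (c : ℝ × ℝ) : ℝ := c.1 + KK c

lemma le_KK1 (c : ℝ × ℝ) : c.1 ≤ KK c := by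
  unfold KK
  apply Real.le_sqrt_of_sq_le
  nlinarith [sq_nonneg c.2]

lemma good3 : Good κ3 where
  cont := by
    unfold κ3
    exact continuous_fst.add KK_cont
  le1 := fun c h1 _ => by
    have := KK_nonneg c
    unfold κ3
    linarith
  le2 := fun c h1 _ => by
    have := le_KK c
    unfold κ3
    linarith

lemma Rg3 (s : ℝ) : Rg κ3 s = Reg s := rfl

lemma Reg_int2 {s : ℝ} (hs : 0 < s) (m : ℕ) :
    ∫ c in Rg κ3 s, c.1 ^ 2 * c.2 ^ (2 * m + 1) =
      1 / (8 * ((m : ℝ) + 1) * ((m : ℝ) + 2) * ((m : ℝ) + 3) * ((m : ℝ) + 4)) *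
        s ^ (2 + (2 * m + 1) + 2) := by
  rw [← integral_indicator (Rg_measurable good3 s)]
  have hi := ind_integrable good3 s 2 (2 * m + 1)
  rw [Measure.volume_eq_prod] at hi ⊢
  rw [integral_prod _ hi]
  have hin : ∀ x : ℝ, ∫ y, (Rg κ3 s).indicator (fun c : ℝ × ℝ => c.1 ^ 2 * c.2 ^ (2 * m + 1)) (x, y) =
      (Ioo 0 (s / 2)).indicator
        (fun x => x ^ 2 * (s ^ 2 - 2 * s * x) ^ (m + 1) / (2 * ((m : ℝ) + 1))) x := by
    intro x
    have e : (fun y : ℝ => (Rg κ3 s).indicator (fun c : ℝ × ℝ => c.1 ^ 2 * c.2 ^ (2 * m + 1)) (x, y)) =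
        fun y => x ^ 2 * (Reg s).indicator (fun c : ℝ × ℝ => c.2 ^ (2 * m + 1)) (x, y) := by
      funext y
      rw [Rg3]
      by_cases h : (x, y) ∈ Reg s
      · rw [indicator_of_mem h, indicator_of_mem h]
      · rw [indicator_of_notMem h, indicator_of_notMem h, mul_zero]
    rw [e, integral_const_mul, inner_reg hs m]
    by_cases hx : x ∈ Ioo 0 (s / 2)
    · rw [indicator_of_mem hx, indicator_of_mem hx]
      ring
    · rw [indicator_of_notMem hx, indicator_of_notMem hx, mul_zero]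
  simp_rw [hin]
  rw [integral_indicator measurableSet_Ioo, ← integral_Ioc_eq_integral_Ioo,
    ← intervalIntegral.integral_of_le (by positivity), intervalIntegral.integral_div]
  have h2 : (m : ℝ) + 2 ≠ 0 := by positivity
  have h3 : (m : ℝ) + 3 ≠ 0 := by positivity
  have h4 : (m : ℝ) + 4 ≠ 0 := by positivity
  have h5 : (m : ℝ) + 1 ≠ 0 := by positivity
  have hs0 : s ≠ 0 := hs.ne'
  have hu : ∀ x : ℝ, HasDerivAt (fun x : ℝ => s ^ 2 - 2 * s * x) (-(2 * s)) x := by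
    intro x
    have := ((hasDerivAt_id x).const_mul (2 * s)).const_sub (s ^ 2)
    simpa using this
  have hd : ∀ x : ℝ, HasDerivAt (fun x : ℝ =>
      -(x ^ 2 * (s ^ 2 - 2 * s * x) ^ (m + 2)) / (2 * s * ((m : ℝ) + 2)) -
      2 * (x * (s ^ 2 - 2 * s * x) ^ (m + 3)) / ((2 * s) ^ 2 * ((m : ℝ) + 2) * ((m : ℝ) + 3)) -
      2 * (s ^ 2 - 2 * s * x) ^ (m + 4) /
        ((2 * s) ^ 3 * ((m : ℝ) + 2) * ((m : ℝ) + 3) * ((m : ℝ) + 4)))
      (x ^ 2 * (s ^ 2 - 2 * s * x) ^ (m + 1)) x := by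
    intro x
    have d2 := (hu x).pow (m + 2)
    have d3 := (hu x).pow (m + 3)
    have d4 := (hu x).pow (m + 4)
    have dx2 : HasDerivAt (fun x : ℝ => x ^ 2) (2 * x) x := by
      simpa using hasDerivAt_pow 2 x
    have dx : HasDerivAt (fun x : ℝ => x) 1 x := hasDerivAt_id x
    have key := ((((dx2.mul d2).neg).div_const (2 * s * ((m : ℝ) + 2))).sub
      (((dx.mul d3).const_mul 2).div_const ((2 * s) ^ 2 * ((m : ℝ) + 2) * ((m : ℝ) + 3)))).sub
      ((d4.const_mul 2).div_const ((2 * s) ^ 3 * ((m : ℝ) + 2) * ((m : ℝ) + 3) * ((m : ℝ) + 4)))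
    refine HasDerivAt.congr_deriv key ?_
    rw [show m + 2 - 1 = m + 1 by omega, show m + 3 - 1 = m + 2 by omega,
      show m + 4 - 1 = m + 3 by omega]
    simp only [Pi.pow_apply]
    push_cast
    field_simp
    ring
  rw [intervalIntegral.integral_eq_sub_of_hasDerivAt (fun x _ => hd x)
    (Continuous.intervalIntegrable (by fun_prop) _ _)]
  have e1 : s ^ 2 - 2 * s * (s / 2) = 0 := by ring
  have e2 : s ^ 2 - 2 * s * 0 = s ^ 2 := by ring
  rw [e1, e2, zero_pow (by omega : m + 2 ≠ 0), zero_pow (by omega : m + 3 ≠ 0),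
    zero_pow (by omega : m + 4 ≠ 0)]
  rw [← pow_mul s 2 (m + 4), show 2 * (m + 4) = (2 + (2 * m + 1) + 2) + 3 by ring, pow_add s _ 3]
  field_simp
  ring

theorem t_3V : S3_V := by
  intro L R f h n hn hL hR hfc hhc hfpos hhpos hbig hA
  obtain ⟨k, rfl⟩ := Nat.exists_eq_add_of_le' hn
  set m : ℕ := 2 * k + 1 with hm
  have key := vol_gen good3 2 (2 * m + 1) hL hR hfc hhc hfpos hhpos hbig
    (fun c hc => by
      have h1 := hA c hc
      have h2 : R - κ3 c = R - c.1 - KK c := by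
        unfold κ3
        ring
      rw [h2]
      exact h1)
  rw [layer_hom good3 hR 2 (2 * m + 1) (fun s hs => Reg_int2 hs m), ← mul_assoc,
    const_two (2 * m + 1)] at key
  have e1 : 4 * (k + 2) - 4 = 2 * m + 1 + 1 := by omega
  have e2 : 4 * (k + 2) = 2 + (2 * m + 1) + 3 := by omega
  rw [e1, e2]
  set I := ∫ r in (0 : ℝ)..L, f r ^ (2 + 1) * h r ^ (2 * m + 1 + 1) with hI
  have hπ := Real.pi_pos
  have hmk : (m : ℝ) = 2 * k + 1 := by rw [hm]; push_cast; ring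
  have h8 : (0 : ℝ) < π / (16 * ((m : ℝ) + 1) * ((m : ℝ) + 2) * ((m : ℝ) + 3) ^ 2 * ((m : ℝ) + 4)) := by
    positivity
  have h9 : π / (16 * ((m : ℝ) + 1) * ((m : ℝ) + 2) * ((m : ℝ) + 3) ^ 2 * ((m : ℝ) + 4)) *
      R ^ (2 + (2 * m + 1) + 3) <
      π / (16 * ((m : ℝ) + 1) * ((m : ℝ) + 2) * ((m : ℝ) + 3) ^ 2 * ((m : ℝ) + 4)) *
        (2 * ((m : ℝ) + 3) * ((m : ℝ) + 4) * I) := by
    have h2 : (m : ℝ) + 2 ≠ 0 := by positivity
    have h3 : (m : ℝ) + 3 ≠ 0 := by positivity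
    have h4 : (m : ℝ) + 4 ≠ 0 := by positivity
    have h5 : (m : ℝ) + 1 ≠ 0 := by positivity
    have h6 : 2 * (m : ℝ) + 1 + 1 ≠ 0 := by positivity
    have h7 : 2 * (m : ℝ) + 1 + 3 ≠ 0 := by positivity
    have h8 : 2 * (m : ℝ) + 1 + 5 ≠ 0 := by positivity
    have h10 : 2 + (2 * (m : ℝ) + 1) + 3 ≠ 0 := by positivity
    push_cast at key
    calc _ = π * (1 / (8 * ((m : ℝ) + 1) * ((m : ℝ) + 2) * ((m : ℝ) + 3) * ((m : ℝ) + 4)) *
        R ^ (2 + (2 * m + 1) + 3) / (2 + (2 * (m : ℝ) + 1) + 3)) := by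
          field_simp
          ring
      _ < π / ((2 * (m : ℝ) + 1 + 1) * (2 * (m : ℝ) + 1 + 3) * (2 * (m : ℝ) + 1 + 5)) * I := key
      _ = _ := by
          field_simp
          ring
  have h10 := lt_of_mul_lt_mul_left h9 h8.le
  refine h10.trans_le (le_of_eq ?_)
  rw [hmk]
  push_cast
  ring

end Pool.Agent.Helper93.CPQ
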